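import Mathlib

/-!
THEOREM BOX: few vectors have a small sum of squares.
-/

set_option autoImplicit false

namespace Pool.Agent.Lib.MP_6b2d39_agBx

/-- the vectors with entries in `1, …, M` -/
def box (n M : ℕ) : Finset (Fin n → ℕ) := Fintype.piFinset fun _ : Fin n => Finset.Icc 1 M

theorem mem_box {n M : ℕ} {μ : Fin n → ℕ} : μ ∈ box n M ↔ ∀ i, 1 ≤ μ i ∧ μ i ≤ M := by
  unfold box
  rw [Fintype.mem_piFinset]
  simp only [Finset.mem_Icc]

theorem card_box (n M : ℕ) : (box n M).card = M ^ n := by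
  unfold box
  rw [Fintype.card_piFinset, Finset.prod_const, Finset.card_univ, Fintype.card_fin, Nat.card_Icc,
    Nat.add_sub_cancel]

private noncomputable def wt (M k : ℕ) : ℝ := if 2 * k ≤ M then 81 / 16 else 1

private theorem wt_sum (M : ℕ) : ∑ k ∈ Finset.Icc 1 M, wt M k ≤ 97 / 32 * M := by
  have h1 : ∑ k ∈ Finset.Icc 1 M, wt M k =
      ∑ k ∈ Finset.Icc 1 M, (1 + if 2 * k ≤ M then (65 / 16 : ℝ) else 0) := by
    refine Finset.sum_congr rfl fun k _ => ?_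
    unfold wt
    split_ifs
    · norm_num
    · norm_num
  rw [h1, Finset.sum_add_distrib, Finset.sum_const, Nat.card_Icc, Nat.add_sub_cancel,
    nsmul_eq_mul, mul_one, ← Finset.sum_filter, Finset.sum_const, nsmul_eq_mul]
  have h2 : 2 * ((Finset.Icc 1 M).filter (fun k => 2 * k ≤ M)).card ≤ M := by
    have e1 : (Finset.Icc 1 M).filter (fun k => 2 * k ≤ M) ⊆ Finset.Icc 1 (M / 2) := by
      intro k hk
      rw [Finset.mem_filter, Finset.mem_Icc] at hk
      rw [Finset.mem_Icc]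
      omega
    have e2 := Finset.card_le_card e1
    rw [Nat.card_Icc, Nat.add_sub_cancel] at e2
    omega
  have h3 : (2 : ℝ) * (((Finset.Icc 1 M).filter (fun k => 2 * k ≤ M)).card : ℝ) ≤ M := by
    exact_mod_cast h2
  linarith

/-- all vectors but `(97 / 108) ^ n M ^ n` have `16 ∑ μ i ^ 2 ≥ n M ^ 2` -/
theorem tail_small (n M : ℕ) :
    (((box n M).filter (fun μ => 16 * ∑ i, μ i ^ 2 < n * M ^ 2)).card : ℝ) ≤
      (97 / 108) ^ n * (M : ℝ) ^ n := by
  classical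
  obtain ⟨F, hF⟩ : ∃ F, F = (box n M).filter (fun μ => 16 * ∑ i, μ i ^ 2 < n * M ^ 2) := ⟨_, rfl⟩
  rw [← hF]
  have hsum : ∑ μ ∈ box n M, ∏ i, wt M (μ i) = (∑ k ∈ Finset.Icc 1 M, wt M k) ^ n := by
    unfold box
    rw [← Finset.prod_univ_sum (fun _ : Fin n => Finset.Icc 1 M) (fun _ k => wt M k),
      Finset.prod_const, Finset.card_univ, Fintype.card_fin]
  have hwt0 : ∀ k, 0 ≤ wt M k := by
    intro k
    unfold wt
    split_ifs
    · norm_num
    · norm_num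
  have hle : ∀ μ ∈ F, (27 / 8 : ℝ) ^ n ≤ ∏ i, wt M (μ i) := by
    intro μ hμ
    rw [hF, Finset.mem_filter, mem_box] at hμ
    obtain ⟨h1, h2⟩ := hμ
    obtain ⟨X, hX⟩ : ∃ X, X = (Finset.univ.filter (fun i : Fin n => 2 * μ i ≤ M)).card := ⟨_, rfl⟩
    have h3 : ∏ i, wt M (μ i) = (81 / 16 : ℝ) ^ X := by
      unfold wt
      rw [Finset.prod_ite, Finset.prod_const, Finset.prod_const_one, mul_one, hX]
    have h4 : X + (Finset.univ.filter (fun i : Fin n => ¬ 2 * μ i ≤ M)).card = n := by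
      rw [hX, Finset.card_filter_add_card_filter_not, Finset.card_univ, Fintype.card_fin]
    obtain ⟨Y, hY⟩ : ∃ Y, Y = (Finset.univ.filter (fun i : Fin n => ¬ 2 * μ i ≤ M)).card :=
      ⟨_, rfl⟩
    rw [← hY] at h4
    have h5 : Y * M ^ 2 ≤ 4 * ∑ i, μ i ^ 2 := by
      have e1 : ∑ i ∈ Finset.univ.filter (fun i : Fin n => ¬ 2 * μ i ≤ M), M ^ 2 ≤
          ∑ i ∈ Finset.univ.filter (fun i : Fin n => ¬ 2 * μ i ≤ M), 4 * μ i ^ 2 := by
        refine Finset.sum_le_sum fun i hi => ?_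
        rw [Finset.mem_filter] at hi
        have : M ≤ 2 * μ i := by omega
        calc M ^ 2 ≤ (2 * μ i) ^ 2 := Nat.pow_le_pow_left this 2
          _ = 4 * μ i ^ 2 := by ring
      rw [Finset.sum_const, smul_eq_mul, ← hY] at e1
      refine e1.trans ?_
      rw [Finset.mul_sum]
      exact Finset.sum_le_sum_of_subset (Finset.filter_subset _ _)
    have h6 : 4 * Y < n := by
      by_contra hcon
      rw [not_lt] at hcon
      have e1 : n * M ^ 2 ≤ 4 * Y * M ^ 2 := Nat.mul_le_mul_right _ hcon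
      have e2 : 4 * Y * M ^ 2 = 4 * (Y * M ^ 2) := by ring
      omega
    have h7 : 3 * n ≤ 4 * X := by omega
    rw [h3]
    have e1 : (27 / 8 : ℝ) ^ n = (3 / 2 : ℝ) ^ (3 * n) := by
      rw [pow_mul]
      norm_num
    have e2 : (81 / 16 : ℝ) ^ X = (3 / 2 : ℝ) ^ (4 * X) := by
      rw [pow_mul]
      norm_num
    rw [e1, e2]
    exact pow_le_pow_right₀ (by norm_num) h7
  have h1 : (F.card : ℝ) * (27 / 8) ^ n ≤ ∑ μ ∈ F, ∏ i, wt M (μ i) := by
    have := Finset.sum_le_sum hle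
    rw [Finset.sum_const, nsmul_eq_mul] at this
    exact this
  have h2 : ∑ μ ∈ F, ∏ i, wt M (μ i) ≤ ∑ μ ∈ box n M, ∏ i, wt M (μ i) := by
    refine Finset.sum_le_sum_of_subset_of_nonneg ?_ fun μ _ _ =>
      Finset.prod_nonneg fun i _ => hwt0 _
    rw [hF]
    exact Finset.filter_subset _ _
  have h3 : (∑ k ∈ Finset.Icc 1 M, wt M k) ^ n ≤ (97 / 32 * (M : ℝ)) ^ n :=
    pow_le_pow_left₀ (Finset.sum_nonneg fun k _ => hwt0 k) (wt_sum M) n
  have h4 : (97 / 32 * (M : ℝ)) ^ n = (97 / 108) ^ n * (M : ℝ) ^ n * (27 / 8) ^ n := by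
    rw [← mul_pow, ← mul_pow]
    congr 1
    ring
  have h5 : (F.card : ℝ) * (27 / 8) ^ n ≤ (97 / 108) ^ n * (M : ℝ) ^ n * (27 / 8) ^ n := by
    rw [hsum] at h2
    linarith
  exact le_of_mul_le_mul_right h5 (by positivity)

end Pool.Agent.Lib.MP_6b2d39_agBx
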