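import Pool.Agent.Lib.MP_6b2d39_agBx.OneVar
import Pool.Agent.Lib.MP_6b2d39_agBx.Tail

/-!
THEOREM BOX: almost all vectors of multiplicities in `{1, …, M} ^ n`.
-/

set_option autoImplicit false

namespace Pool.Agent.Lib.MP_6b2d39_agBx

open Pool.Agent.Lib.MP_6b2d39_agCr

/-- THEOREM BOX: for `n ^ 5 ≥ C M ^ 2 log (M + 2) ^ 6`, all systems with `n` points of multiplicities
in `1, …, M` but a proportion of at most `ε` are nonspecial in all degrees -/
theorem box_density (ε : ℝ) (hε : 0 < ε) : ∃ C : ℝ, 1 ≤ C ∧ ∀ n M : ℕ, 1 ≤ M →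
    C * ((M : ℝ) ^ 2 * Real.log (M + 2) ^ 6) ≤ (n : ℝ) ^ 5 →
    ({μ : Fin n → ℕ | (∀ i, 1 ≤ μ i ∧ μ i ≤ M) ∧ ¬ AllOk μ}.ncard : ℝ) ≤ ε * (M : ℝ) ^ n := by
  classical
  obtain ⟨C1, hC1, h1⟩ := one_var (ε / 2) (by linarith)
  obtain ⟨N0, hN0⟩ := exists_pow_lt_of_lt_one (show 0 < ε / 2 by linarith)
    (show (97 / 108 : ℝ) < 1 by norm_num)
  refine ⟨2 ^ 25 * C1 + ((N0 : ℝ) + 1) ^ 5, by
    have : 0 < ((N0 : ℝ) + 1) ^ 5 := by positivity
    linarith, fun n M hM hn => ?_⟩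
  have hm : (1 : ℝ) ≤ M := by exact_mod_cast hM
  have hm0 : (0 : ℝ) < M := by linarith
  have hl1 : 1 ≤ Real.log ((M : ℝ) + 2) := by
    rw [Real.le_log_iff_exp_le (by linarith)]
    have := Real.exp_one_lt_d9
    linarith
  obtain ⟨b, hb⟩ : ∃ b, b = (M : ℝ) ^ 2 * Real.log (M + 2) ^ 6 := ⟨_, rfl⟩
  have hb1 : 1 ≤ b := by
    rw [hb]
    exact one_le_mul_of_one_le_of_one_le (one_le_pow₀ hm) (one_le_pow₀ hl1)
  rw [← hb] at hn
  have hn1 : N0 + 1 ≤ n := by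
    have e1 : ((N0 : ℝ) + 1) ^ 5 ≤ (n : ℝ) ^ 5 := by
      refine le_trans ?_ hn
      have e2 : (2 ^ 25 * C1 + ((N0 : ℝ) + 1) ^ 5) * 1 ≤ (2 ^ 25 * C1 + ((N0 : ℝ) + 1) ^ 5) * b :=
        mul_le_mul_of_nonneg_left hb1 (by positivity)
      linarith
    have e2 := (pow_le_pow_iff_left₀ (by positivity) (by positivity) (by norm_num)).1 e1
    exact_mod_cast e2
  have hn2 : 2 ^ 25 * C1 * b ≤ (n : ℝ) ^ 5 := by
    refine le_trans ?_ hn
    refine mul_le_mul_of_nonneg_right ?_ (by linarith)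
    have : 0 < ((N0 : ℝ) + 1) ^ 5 := by positivity
    linarith
  obtain ⟨k, rfl⟩ : ∃ k, n = k + 1 := ⟨n - 1, by omega⟩
  have hk : N0 ≤ k := by omega
  -- finite sets
  obtain ⟨B, hB⟩ : ∃ B, B = (box (k + 1) M).filter (fun μ => ¬ AllOk μ) := ⟨_, rfl⟩
  have hset : {μ : Fin (k + 1) → ℕ | (∀ i, 1 ≤ μ i ∧ μ i ≤ M) ∧ ¬ AllOk μ} =
      (B : Set (Fin (k + 1) → ℕ)) := by
    ext μ
    rw [hB, Finset.mem_coe, Finset.mem_filter, mem_box]
    exact Iff.rfl
  rw [hset, Set.ncard_coe_finset]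
  obtain ⟨F, hF⟩ : ∃ F, F = (box k M).filter (fun μ => 16 * ∑ i, μ i ^ 2 < k * M ^ 2) := ⟨_, rfl⟩
  have hFc : (F.card : ℝ) ≤ (97 / 108) ^ k * (M : ℝ) ^ k := by rw [hF]; exact tail_small k M
  obtain ⟨A, hA⟩ : ∃ A : (Fin k → ℕ) → Finset ℕ, A = fun ν => (Finset.Icc 1 M).filter
      (fun a => ¬ AllOk (Fin.cons a ν : Fin (k + 1) → ℕ)) := ⟨_, rfl⟩
  have hAset : ∀ ν, {a : ℕ | 1 ≤ a ∧ a ≤ M ∧ ¬ AllOk (Fin.cons a ν : Fin (k + 1) → ℕ)} =
      (A ν : Set ℕ) := by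
    intro ν
    ext a
    rw [hA, Finset.mem_coe, Finset.mem_filter, Finset.mem_Icc, and_assoc]
    exact Iff.rfl
  have hA1 : ∀ ν, ((A ν).card : ℝ) ≤ M := by
    intro ν
    have e1 : (A ν).card ≤ (Finset.Icc 1 M).card := by
      rw [hA]
      exact Finset.card_filter_le _ _
    rw [Nat.card_Icc, Nat.add_sub_cancel] at e1
    exact_mod_cast e1
  have hA2 : ∀ ν ∈ box k M, ν ∉ F → ((A ν).card : ℝ) ≤ ε / 2 * M := by
    intro ν hν hνF
    have e1 := h1 k M ν hM (fun i => (mem_box.1 hν i).2) (by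
      rw [hF, Finset.mem_filter, not_and] at hνF
      have f1 := hνF hν
      rw [not_lt] at f1
      have f2 : (k : ℝ) * (M : ℝ) ^ 2 ≤ 16 * ((∑ i, ν i ^ 2 : ℕ) : ℝ) := by exact_mod_cast f1
      have f3 : ((k + 1 : ℕ) : ℝ) ≤ 2 * k := by
        push_cast
        have : (1 : ℝ) ≤ k := by
          by_contra hcon
          rw [not_le] at hcon
          have : k = 0 := by
            have : (k : ℝ) < (1 : ℕ) := by exact_mod_cast hcon
            have := Nat.cast_lt.1 this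
            omega
          subst this
          have f4 : (2 : ℝ) ^ 25 * 1 * 1 ≤ 2 ^ 25 * C1 * b :=
            mul_le_mul (mul_le_mul_of_nonneg_left hC1 (by positivity)) hb1 (by norm_num)
              (by positivity)
          norm_num at hn2
          linarith
        linarith
      have f5 : ((k + 1 : ℕ) : ℝ) * (M : ℝ) ^ 2 ≤ 32 * ((∑ i, ν i ^ 2 : ℕ) : ℝ) := by
        have := mul_le_mul_of_nonneg_right f3 (by positivity : (0 : ℝ) ≤ (M : ℝ) ^ 2)
        linarith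
      have f6 := pow_le_pow_left₀ (by positivity) f5 5
      have f7 : (((k + 1 : ℕ) : ℝ) * (M : ℝ) ^ 2) ^ 5 = ((k + 1 : ℕ) : ℝ) ^ 5 * (M : ℝ) ^ 10 := by ring
      have f8 : (32 * ((∑ i, ν i ^ 2 : ℕ) : ℝ)) ^ 5 = 2 ^ 25 * ((∑ i, ν i ^ 2 : ℕ) : ℝ) ^ 5 := by
        ring
      rw [f7, f8] at f6
      have f9 : 2 ^ 25 * C1 * b * (M : ℝ) ^ 10 ≤ ((k + 1 : ℕ) : ℝ) ^ 5 * (M : ℝ) ^ 10 :=
        mul_le_mul_of_nonneg_right hn2 (by positivity)
      have f10 : 2 ^ 25 * C1 * b * (M : ℝ) ^ 10 =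
          2 ^ 25 * (C1 * ((M : ℝ) ^ 12 * Real.log (M + 2) ^ 6)) := by
        rw [hb]
        ring
      rw [f10] at f9
      have f11 := f9.trans f6
      exact le_of_mul_le_mul_left f11 (by positivity))
    rw [hAset, Set.ncard_coe_finset] at e1
    exact e1
  -- the fibres of `Fin.tail`
  have hmaps : ∀ μ ∈ B, (Fin.tail μ : Fin k → ℕ) ∈ box k M := by
    intro μ hμ
    rw [hB, Finset.mem_filter, mem_box] at hμ
    rw [mem_box]
    exact fun i => hμ.1 i.succ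
  have hfib : ∀ ν ∈ box k M, ((B.filter (fun μ => (Fin.tail μ : Fin k → ℕ) = ν)).card : ℝ) ≤
      (A ν).card := by
    intro ν _
    have e1 : (B.filter (fun μ => (Fin.tail μ : Fin k → ℕ) = ν)).card ≤ (A ν).card := by
      refine Finset.card_le_card_of_injOn (fun μ => μ 0) ?_ ?_
      · intro μ hμ
        rw [Finset.mem_coe, Finset.mem_filter, hB, Finset.mem_filter, mem_box] at hμ
        obtain ⟨⟨h2, h3⟩, h4⟩ := hμ
        rw [Finset.mem_coe, hA, Finset.mem_filter, Finset.mem_Icc]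
        refine ⟨h2 0, ?_⟩
        rw [← h4, Fin.cons_self_tail]
        exact h3
      · intro μ hμ μ' hμ' h0
        rw [Finset.mem_coe, Finset.mem_filter] at hμ hμ'
        rw [← Fin.cons_self_tail μ, ← Fin.cons_self_tail μ', hμ.2, hμ'.2]
        have : μ 0 = μ' 0 := h0
        rw [this]
    exact_mod_cast e1
  have hcard : (B.card : ℝ) ≤ ∑ ν ∈ box k M, ((A ν).card : ℝ) := by
    have e1 := Finset.card_eq_sum_card_fiberwise hmaps
    rw [e1]
    push_cast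
    exact Finset.sum_le_sum hfib
  have hsplit : ∑ ν ∈ box k M, ((A ν).card : ℝ) ≤ F.card * (M : ℝ) + (M : ℝ) ^ k * (ε / 2 * M) := by
    have e1 : ∑ ν ∈ box k M, ((A ν).card : ℝ) =
        ∑ ν ∈ (box k M).filter (fun ν => ν ∈ F), ((A ν).card : ℝ) +
          ∑ ν ∈ (box k M).filter (fun ν => ν ∉ F), ((A ν).card : ℝ) :=
      (Finset.sum_filter_add_sum_filter_not _ _ _).symm
    rw [e1]
    refine add_le_add ?_ ?_
    · have e2 : ∑ ν ∈ (box k M).filter (fun ν => ν ∈ F), ((A ν).card : ℝ) ≤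
          ∑ ν ∈ (box k M).filter (fun ν => ν ∈ F), (M : ℝ) :=
        Finset.sum_le_sum fun ν _ => hA1 ν
      refine e2.trans ?_
      rw [Finset.sum_const, nsmul_eq_mul]
      refine mul_le_mul_of_nonneg_right ?_ hm0.le
      have e3 : (box k M).filter (fun ν => ν ∈ F) ⊆ F := fun ν hν => (Finset.mem_filter.1 hν).2
      exact_mod_cast Finset.card_le_card e3
    · have e2 : ∑ ν ∈ (box k M).filter (fun ν => ν ∉ F), ((A ν).card : ℝ) ≤
          ∑ ν ∈ (box k M).filter (fun ν => ν ∉ F), (ε / 2 * (M : ℝ)) := by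
        refine Finset.sum_le_sum fun ν hν => ?_
        rw [Finset.mem_filter] at hν
        exact hA2 ν hν.1 hν.2
      refine e2.trans ?_
      rw [Finset.sum_const, nsmul_eq_mul]
      refine mul_le_mul_of_nonneg_right ?_ (by positivity)
      have e3 := Finset.card_filter_le (box k M) (fun ν => ν ∉ F)
      rw [card_box] at e3
      exact_mod_cast e3
  have hpow : (97 / 108 : ℝ) ^ k ≤ ε / 2 :=
    (pow_le_pow_of_le_one (by norm_num) (by norm_num) hk).trans hN0.le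
  have h2 : (F.card : ℝ) * M ≤ ε / 2 * (M : ℝ) ^ k * M := by
    refine mul_le_mul_of_nonneg_right (hFc.trans ?_) hm0.le
    exact mul_le_mul_of_nonneg_right hpow (by positivity)
  have h3 : ε * (M : ℝ) ^ (k + 1) = ε / 2 * (M : ℝ) ^ k * M + (M : ℝ) ^ k * (ε / 2 * M) := by
    rw [pow_succ]
    ring
  rw [h3]
  linarith

end Pool.Agent.Lib.MP_6b2d39_agBx
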