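import Mathlib

/-!
THEOREM BOX: counting the exceptional values of one multiplicity.
-/

set_option autoImplicit false

namespace Pool.Agent.Lib.MP_6b2d39_agBx

/-- a set of naturals of small diameter is small -/
theorem card_of_diam {A : Finset ℕ} {w L : ℝ} (hw : 0 < w) (hL : 0 ≤ L)
    (h : ∀ a ∈ A, ∀ b ∈ A, a ≤ b → ((b : ℝ) - a) * w ≤ L) : (A.card : ℝ) ≤ L / w + 1 := by
  rcases A.eq_empty_or_nonempty with h0 | h0
  · rw [h0, Finset.card_empty]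
    have : 0 ≤ L / w := by positivity
    push_cast
    linarith
  · have h1 : A ⊆ Finset.Icc (A.min' h0) (A.max' h0) := fun x hx =>
      Finset.mem_Icc.2 ⟨A.min'_le x hx, A.le_max' x hx⟩
    have h2 := Finset.card_le_card h1
    rw [Nat.card_Icc] at h2
    have h3 : A.min' h0 ≤ A.max' h0 := A.min'_le _ (A.max'_mem h0)
    have h4 := h _ (A.min'_mem h0) _ (A.max'_mem h0) h3
    have h5 : (A.card : ℝ) ≤ (A.max' h0 : ℝ) - A.min' h0 + 1 := by
      have h6 : A.card ≤ A.max' h0 - A.min' h0 + 1 := by omega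
      have h7 : (A.card : ℝ) ≤ ((A.max' h0 - A.min' h0 + 1 : ℕ) : ℝ) := by exact_mod_cast h6
      rwa [Nat.cast_add, Nat.cast_sub h3, Nat.cast_one] at h7
    have h8 : (A.max' h0 : ℝ) - A.min' h0 ≤ L / w := by
      rw [le_div_iff₀ hw]
      exact h4
    linarith

/-- the values `k` of one multiplicity for which some degree is close to critical -/
theorem card_bad {M : ℕ} {s δ κ : ℝ} (hM : 1 ≤ M) (hδ : 0 < δ) (hδ8 : δ ≤ 1 / 8) (hκ : 0 < κ)
    (hs : (M : ℝ) ^ 2 ≤ s ^ 2) (hs10 : 10 ≤ s) {A : Finset ℕ}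
    (hA : ∀ k ∈ A, 1 ≤ k ∧ k ≤ M ∧ ∃ d : ℕ,
      |(((d + 2).choose 2 : ℕ) : ℝ) - s ^ 2 - (((k + 1).choose 2 : ℕ) : ℝ)| < δ * ((d : ℝ) + 1)) :
    (A.card : ℝ) ≤ κ * M + (((M : ℝ) ^ 2 + 4 * δ * s) / s + 1) * (4 * δ * s / (κ * M) + 1) := by
  classical
  have hM0 : (1 : ℝ) ≤ M := by exact_mod_cast hM
  have hch : ∀ k : ℕ, (((k + 1).choose 2 : ℕ) : ℝ) = (k : ℝ) * (k + 1) / 2 := by
    intro k
    rw [Nat.cast_choose_two]
    push_cast
    ring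
  have hch2 : ∀ d : ℕ, (((d + 2).choose 2 : ℕ) : ℝ) = ((d : ℝ) + 1) * (d + 2) / 2 := by
    intro d
    rw [Nat.cast_choose_two]
    push_cast
    ring
  -- the relevant degrees satisfy `s ≤ d + 1 ≤ 2 s`
  have hd : ∀ k d : ℕ, k ≤ M →
      |(((d + 2).choose 2 : ℕ) : ℝ) - s ^ 2 - (((k + 1).choose 2 : ℕ) : ℝ)| < δ * ((d : ℝ) + 1) →
      s ≤ (d : ℝ) + 1 ∧ (d : ℝ) + 1 ≤ 2 * s := by
    intro k d hk h
    rw [abs_lt, hch2, hch] at h
    obtain ⟨h1, h2⟩ := h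
    have hk' : (k : ℝ) ≤ M := by exact_mod_cast hk
    have hk0 : (0 : ℝ) ≤ k := by positivity
    obtain ⟨N, hN⟩ : ∃ N : ℝ, N = (d : ℝ) + 1 := ⟨_, rfl⟩
    have hN1 : 1 ≤ N := by
      rw [hN]
      have : (0 : ℝ) ≤ d := by positivity
      linarith
    have e0 : ((d : ℝ) + 1) * (d + 2) = N * (N + 1) := by rw [hN]; ring
    rw [e0, ← hN] at h1 h2
    rw [← hN]
    have e1 : δ * N ≤ N / 8 := by nlinarith
    have e2 : (k : ℝ) * (k + 1) / 2 ≤ s ^ 2 := by nlinarith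
    have e3 : 0 ≤ (k : ℝ) * (k + 1) / 2 := by positivity
    have hb : N ≤ 2 * s := by
      by_contra hcon
      rw [not_le] at hcon
      nlinarith
    refine ⟨?_, hb⟩
    by_contra hcon
    rw [not_le] at hcon
    nlinarith
  -- the set of the relevant degrees
  obtain ⟨P, hP⟩ : ∃ P : ℕ → ℕ → Prop, P = fun (k d : ℕ) =>
      |(((d + 2).choose 2 : ℕ) : ℝ) - s ^ 2 - (((k + 1).choose 2 : ℕ) : ℝ)| < δ * ((d : ℝ) + 1) :=
    ⟨_, rfl⟩
  obtain ⟨I, hI⟩ : ∃ I : Finset ℕ, I = (Finset.range (⌈2 * s⌉₊ + 1)).filter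
      (fun d => ∃ k, 1 ≤ k ∧ k ≤ M ∧ P k d) := ⟨_, rfl⟩
  have hI1 : (I.card : ℝ) ≤ ((M : ℝ) ^ 2 + 4 * δ * s) / s + 1 := by
    refine card_of_diam (by linarith) (by positivity) fun a ha b hb hab => ?_
    rw [hI, Finset.mem_filter, hP] at ha hb
    obtain ⟨-, k1, hk1, hk2, h1⟩ := ha
    obtain ⟨-, k2, hk3, hk4, h2⟩ := hb
    obtain ⟨f1, f2⟩ := hd k1 a hk2 h1
    obtain ⟨f3, f4⟩ := hd k2 b hk4 h2
    rw [abs_lt, hch2, hch] at h1 h2
    have hk2' : (k2 : ℝ) ≤ M := by exact_mod_cast hk4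
    have hk20 : (1 : ℝ) ≤ k2 := by exact_mod_cast hk3
    have hk10 : (0 : ℝ) ≤ k1 := by positivity
    have hab' : (a : ℝ) ≤ b := by exact_mod_cast hab
    have e1 : ((b : ℝ) - a) * s ≤ ((b : ℝ) - a) * ((a + b + 3) / 2) :=
      mul_le_mul_of_nonneg_left (by linarith) (by linarith)
    have e2 : ((b : ℝ) - a) * ((a + b + 3) / 2) =
        ((b : ℝ) + 1) * (b + 2) / 2 - ((a : ℝ) + 1) * (a + 2) / 2 := by ring
    have e3 : δ * ((a : ℝ) + 1) ≤ δ * (2 * s) := mul_le_mul_of_nonneg_left f2 hδ.le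
    have e4 : δ * ((b : ℝ) + 1) ≤ δ * (2 * s) := mul_le_mul_of_nonneg_left f4 hδ.le
    have e5 : (k2 : ℝ) * (k2 + 1) / 2 ≤ (M : ℝ) ^ 2 := by nlinarith
    have e6 : 0 ≤ (k1 : ℝ) * (k1 + 1) / 2 := by positivity
    linarith [h1.1, h1.2, h2.1, h2.2]
  -- the fibres
  obtain ⟨F, hF⟩ : ∃ F : ℕ → Finset ℕ, F = fun d =>
      (Finset.Icc 1 M).filter (fun k : ℕ => κ * M ≤ (k : ℝ) ∧ P k d) := ⟨_, rfl⟩
  have hF1 : ∀ d ∈ I, ((F d).card : ℝ) ≤ 4 * δ * s / (κ * M) + 1 := by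
    intro d hdI
    refine card_of_diam (by positivity) (by positivity) fun a ha b hb hab => ?_
    rw [hF, Finset.mem_filter, Finset.mem_Icc, hP] at ha hb
    obtain ⟨⟨ha1, ha2⟩, ha3, h1⟩ := ha
    obtain ⟨⟨hb1, hb2⟩, hb3, h2⟩ := hb
    obtain ⟨f1, f2⟩ := hd a d ha2 h1
    rw [abs_lt, hch2, hch] at h1 h2
    have hab' : (a : ℝ) ≤ b := by exact_mod_cast hab
    have e1 : ((b : ℝ) - a) * (κ * M) ≤ ((b : ℝ) - a) * ((a + b + 1) / 2) := by
      refine mul_le_mul_of_nonneg_left ?_ (by linarith)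
      linarith
    have e2 : ((b : ℝ) - a) * ((a + b + 1) / 2) = (b : ℝ) * (b + 1) / 2 - (a : ℝ) * (a + 1) / 2 := by
      ring
    have e3 : δ * ((d : ℝ) + 1) ≤ δ * (2 * s) := mul_le_mul_of_nonneg_left f2 hδ.le
    linarith [h1.1, h1.2, h2.1, h2.2]
  -- the small values
  obtain ⟨G, hG⟩ : ∃ G : Finset ℕ, G = (Finset.Icc 1 M).filter (fun k : ℕ => (k : ℝ) < κ * M) :=
    ⟨_, rfl⟩
  have hG1 : (G.card : ℝ) ≤ κ * M := by
    have h1 : G ⊆ Finset.Icc 1 ⌊κ * M⌋₊ := by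
      intro k hk
      rw [hG, Finset.mem_filter, Finset.mem_Icc] at hk
      exact Finset.mem_Icc.2 ⟨hk.1.1, Nat.le_floor hk.2.le⟩
    have h2 := Finset.card_le_card h1
    rw [Nat.card_Icc, Nat.add_sub_cancel] at h2
    have h3 : (G.card : ℝ) ≤ (⌊κ * M⌋₊ : ℝ) := by exact_mod_cast h2
    exact h3.trans (Nat.floor_le (by positivity))
  have hsub : A ⊆ G ∪ I.biUnion F := by
    intro k hk
    obtain ⟨hk1, hk2, d, h⟩ := hA k hk
    rw [Finset.mem_union]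
    rcases lt_or_ge (k : ℝ) (κ * M) with hc | hc
    · left
      rw [hG, Finset.mem_filter, Finset.mem_Icc]
      exact ⟨⟨hk1, hk2⟩, hc⟩
    · right
      rw [Finset.mem_biUnion]
      refine ⟨d, ?_, ?_⟩
      · rw [hI, Finset.mem_filter, Finset.mem_range, hP]
        refine ⟨?_, k, hk1, hk2, h⟩
        have h1 := (hd k d hk2 h).2
        have h2 : (d : ℝ) ≤ 2 * s := by linarith
        have h3 : d ≤ ⌈2 * s⌉₊ := by
          have := h2.trans (Nat.le_ceil (2 * s))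
          exact_mod_cast this
        omega
      · rw [hF, Finset.mem_filter, Finset.mem_Icc, hP]
        exact ⟨⟨hk1, hk2⟩, hc, h⟩
  have h1 : A.card ≤ G.card + (I.biUnion F).card :=
    (Finset.card_le_card hsub).trans (Finset.card_union_le _ _)
  have h2 : ((I.biUnion F).card : ℝ) ≤ I.card * (4 * δ * s / (κ * M) + 1) := by
    have e1 : (I.biUnion F).card ≤ ∑ d ∈ I, (F d).card := Finset.card_biUnion_le
    have e2 : ((I.biUnion F).card : ℝ) ≤ ∑ d ∈ I, ((F d).card : ℝ) := by exact_mod_cast e1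
    refine e2.trans ?_
    have e3 := Finset.sum_le_sum hF1
    rw [Finset.sum_const, nsmul_eq_mul] at e3
    exact e3
  have h3 : (I.card : ℝ) * (4 * δ * s / (κ * M) + 1) ≤
      (((M : ℝ) ^ 2 + 4 * δ * s) / s + 1) * (4 * δ * s / (κ * M) + 1) :=
    mul_le_mul_of_nonneg_right hI1 (by positivity)
  have h4 : (A.card : ℝ) ≤ (G.card : ℝ) + ((I.biUnion F).card : ℝ) := by exact_mod_cast h1
  linarith

end Pool.Agent.Lib.MP_6b2d39_agBx
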