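import Mathlib

/-!
THEOREM BOX: numbers.
-/

set_option autoImplicit false

namespace Pool.Agent.Lib.MP_6b2d39_agBx

/-- `log (x + 2) ^ 3 ≤ 128000 x ^ (3 / 40)` -/
theorem log_cube {x : ℝ} (hx : 1 ≤ x) : Real.log (x + 2) ^ 3 ≤ 128000 * x ^ (3 / 40 : ℝ) := by
  have h0 : (0 : ℝ) ≤ x := by linarith
  have h1 : Real.log (x + 2) ≤ Real.log (3 * x) := Real.log_le_log (by linarith) (by linarith)
  have h2 : Real.log (3 * x) ≤ (3 * x) ^ (1 / 40 : ℝ) / (1 / 40 : ℝ) :=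
    Real.log_le_rpow_div (by positivity) (by norm_num)
  have h3 : 0 ≤ Real.log (x + 2) := Real.log_nonneg (by linarith)
  have h4 : Real.log (x + 2) ^ 3 ≤ ((3 * x) ^ (1 / 40 : ℝ) / (1 / 40 : ℝ)) ^ 3 :=
    pow_le_pow_left₀ h3 (h1.trans h2) 3
  have h5 : ((3 * x) ^ (1 / 40 : ℝ)) ^ 3 = (3 : ℝ) ^ (3 / 40 : ℝ) * x ^ (3 / 40 : ℝ) := by
    rw [← Real.rpow_natCast, ← Real.rpow_mul (by positivity), Real.mul_rpow (by norm_num) h0]
    norm_num
  have h6 : ((3 * x) ^ (1 / 40 : ℝ) / (1 / 40 : ℝ)) ^ 3 =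
      64000 * ((3 : ℝ) ^ (3 / 40 : ℝ) * x ^ (3 / 40 : ℝ)) := by
    rw [div_pow, h5]
    ring
  have h7 : (3 : ℝ) ^ (3 / 40 : ℝ) ≤ 2 := by
    have e1 : (3 : ℝ) ^ (3 / 40 : ℝ) ≤ (3 : ℝ) ^ (1 / 2 : ℝ) :=
      Real.rpow_le_rpow_of_exponent_le (by norm_num) (by norm_num)
    have e2 : (3 : ℝ) ^ (1 / 2 : ℝ) ≤ 2 := by
      rw [← Real.sqrt_eq_rpow, Real.sqrt_le_left (by norm_num)]
      norm_num
    exact e1.trans e2
  rw [h6] at h4
  have h8 : 0 ≤ x ^ (3 / 40 : ℝ) := by positivity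
  have h9 : (3 : ℝ) ^ (3 / 40 : ℝ) * x ^ (3 / 40 : ℝ) ≤ 2 * x ^ (3 / 40 : ℝ) :=
    mul_le_mul_of_nonneg_right h7 h8
  linarith

/-- the window of THEOREM U+ is `≤ δ N` if `N ^ 5 ≥ c M ^ 6 log (M + 2) ^ 3` -/
theorem win_le (K δ : ℝ) (hK : 1 ≤ K) (hδ : 0 < δ) : ∃ c : ℝ, 1 ≤ c ∧ ∀ m n : ℝ, 1 ≤ m →
    0 ≤ n → c * (m ^ 6 * Real.log (m + 2) ^ 3) ≤ n ^ 5 →
    K * (m ^ (9 / 8 : ℝ) + m ^ 6 / n ^ 4) * Real.log (n / m + 2) ^ 3 ≤ δ * n := by
  obtain ⟨T, hT⟩ : ∃ T, T = max 1 (256000 * K / δ) := ⟨_, rfl⟩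
  have hT1 : 1 ≤ T := by rw [hT]; exact le_max_left _ _
  have hT2 : 256000 * K ≤ T * δ := by
    have h1 : 256000 * K / δ ≤ T := by rw [hT]; exact le_max_right _ _
    rwa [div_le_iff₀ hδ] at h1
  have hT0 : 0 < T := by linarith
  refine ⟨T ^ 100, one_le_pow₀ hT1, fun m n hm hn0 h => ?_⟩
  have hm0 : 0 < m := by linarith
  have hl1 : 1 ≤ Real.log (m + 2) := by
    rw [Real.le_log_iff_exp_le (by linarith)]
    have := Real.exp_one_lt_d9
    linarith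
  have hl3 : 1 ≤ Real.log (m + 2) ^ 3 := one_le_pow₀ hl1
  have hm6 : 1 ≤ m ^ 6 := one_le_pow₀ hm
  have hT100 : 1 ≤ T ^ 100 := one_le_pow₀ hT1
  -- `n ^ 5 ≥ m ^ 6` and `n ≥ T ^ 20`
  have h1 : m ^ 6 ≤ n ^ 5 := by
    refine le_trans ?_ h
    have e1 : m ^ 6 * 1 ≤ m ^ 6 * Real.log (m + 2) ^ 3 :=
      mul_le_mul_of_nonneg_left hl3 (by positivity)
    have e2 : 1 * (m ^ 6 * Real.log (m + 2) ^ 3) ≤ T ^ 100 * (m ^ 6 * Real.log (m + 2) ^ 3) :=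
      mul_le_mul_of_nonneg_right hT100 (by positivity)
    linarith
  have h2 : T ^ 20 ≤ n := by
    have e1 : (T ^ 20) ^ 5 ≤ n ^ 5 := by
      refine le_trans ?_ h
      have e2 : (T ^ 20) ^ 5 = T ^ 100 := by ring
      rw [e2]
      have e3 : 1 ≤ m ^ 6 * Real.log (m + 2) ^ 3 := one_le_mul_of_one_le_of_one_le hm6 hl3
      have e4 : T ^ 100 * 1 ≤ T ^ 100 * (m ^ 6 * Real.log (m + 2) ^ 3) :=
        mul_le_mul_of_nonneg_left e3 (by positivity)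
      linarith
    exact (pow_le_pow_iff_left₀ (by positivity) hn0 (by norm_num)).1 e1
  have hn1 : 1 ≤ n := (one_le_pow₀ hT1).trans h2
  have hnpos : 0 < n := by linarith
  -- `m ≤ n ^ (5 / 6)`
  have h3 : m ≤ n ^ (5 / 6 : ℝ) := by
    have e1 : m ^ 6 ≤ (n ^ (5 / 6 : ℝ)) ^ 6 := by
      have e2 : (n ^ (5 / 6 : ℝ)) ^ 6 = n ^ 5 := by
        rw [← Real.rpow_natCast, ← Real.rpow_mul hn0, ← Real.rpow_natCast n 5]
        norm_num
      rw [e2]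
      exact h1
    exact (pow_le_pow_iff_left₀ hm0.le (by positivity) (by norm_num)).1 e1
  have h4 : m ≤ n := by
    refine h3.trans ?_
    have : n ^ (5 / 6 : ℝ) ≤ n ^ (1 : ℝ) :=
      Real.rpow_le_rpow_of_exponent_le hn1 (by norm_num)
    rwa [Real.rpow_one] at this
  have hr : 1 ≤ n / m := by rwa [one_le_div hm0]
  obtain ⟨L, hL⟩ : ∃ L, L = Real.log (n / m + 2) ^ 3 := ⟨_, rfl⟩
  rw [← hL]
  have hL0 : 0 ≤ L := by
    rw [hL]
    have : 0 ≤ Real.log (n / m + 2) := Real.log_nonneg (by linarith)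
    positivity
  have hL1 : L ≤ 128000 * (n / m) ^ (3 / 40 : ℝ) := by rw [hL]; exact log_cube hr
  -- first term
  have hA : m ^ (9 / 8 : ℝ) * L ≤ 128000 * n ^ (19 / 20 : ℝ) := by
    have e1 : m ^ (9 / 8 : ℝ) * L ≤ m ^ (9 / 8 : ℝ) * (128000 * (n / m) ^ (3 / 40 : ℝ)) :=
      mul_le_mul_of_nonneg_left hL1 (by positivity)
    have e2 : m ^ (9 / 8 : ℝ) * (128000 * (n / m) ^ (3 / 40 : ℝ)) =
        128000 * (m ^ (21 / 20 : ℝ) * n ^ (3 / 40 : ℝ)) := by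
      rw [Real.div_rpow hn0 hm0.le]
      have e3 : m ^ (9 / 8 : ℝ) = m ^ (21 / 20 : ℝ) * m ^ (3 / 40 : ℝ) := by
        rw [← Real.rpow_add hm0]
        norm_num
      rw [e3]
      have e4 : m ^ (3 / 40 : ℝ) ≠ 0 := by positivity
      field_simp
    have e5 : m ^ (21 / 20 : ℝ) ≤ (n ^ (5 / 6 : ℝ)) ^ (21 / 20 : ℝ) :=
      Real.rpow_le_rpow hm0.le h3 (by norm_num)
    have e6 : (n ^ (5 / 6 : ℝ)) ^ (21 / 20 : ℝ) * n ^ (3 / 40 : ℝ) = n ^ (19 / 20 : ℝ) := by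
      rw [← Real.rpow_mul hn0, ← Real.rpow_add hnpos]
      norm_num
    have e7 : m ^ (21 / 20 : ℝ) * n ^ (3 / 40 : ℝ) ≤
        (n ^ (5 / 6 : ℝ)) ^ (21 / 20 : ℝ) * n ^ (3 / 40 : ℝ) :=
      mul_le_mul_of_nonneg_right e5 (by positivity)
    rw [e6] at e7
    rw [e2] at e1
    linarith
  have hT20 : T * n ^ (19 / 20 : ℝ) ≤ n := by
    have e1 : T ≤ n ^ (1 / 20 : ℝ) := by
      have e2 : (T ^ 20) ^ (1 / 20 : ℝ) ≤ n ^ (1 / 20 : ℝ) :=
        Real.rpow_le_rpow (by positivity) h2 (by norm_num)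
      have e3 : (T ^ 20) ^ (1 / 20 : ℝ) = T := by
        rw [← Real.rpow_natCast T 20, ← Real.rpow_mul hT0.le]
        norm_num
      rwa [e3] at e2
    have e4 : T * n ^ (19 / 20 : ℝ) ≤ n ^ (1 / 20 : ℝ) * n ^ (19 / 20 : ℝ) :=
      mul_le_mul_of_nonneg_right e1 (by positivity)
    have e5 : n ^ (1 / 20 : ℝ) * n ^ (19 / 20 : ℝ) = n := by
      rw [← Real.rpow_add hnpos]
      norm_num
    rwa [e5] at e4
  have hA2 : K * (m ^ (9 / 8 : ℝ) * L) ≤ δ * n / 2 := by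
    have e1 : K * (m ^ (9 / 8 : ℝ) * L) ≤ K * (128000 * n ^ (19 / 20 : ℝ)) :=
      mul_le_mul_of_nonneg_left hA (by linarith)
    have e2 : 256000 * K * n ^ (19 / 20 : ℝ) ≤ T * δ * n ^ (19 / 20 : ℝ) :=
      mul_le_mul_of_nonneg_right hT2 (by positivity)
    have e3 : δ * (T * n ^ (19 / 20 : ℝ)) ≤ δ * n := mul_le_mul_of_nonneg_left hT20 hδ.le
    have e4 : δ * (T * n ^ (19 / 20 : ℝ)) = T * δ * n ^ (19 / 20 : ℝ) := by ring
    linarith
  -- second term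
  have hB : K * (m ^ 6 * L) ≤ δ / 2 * n ^ 5 := by
    have hKT : 2 * K ≤ T * δ := by linarith
    rcases le_or_gt (n / m) m with hc | hc
    · have e1 : L ≤ Real.log (m + 2) ^ 3 := by
        rw [hL]
        exact pow_le_pow_left₀ (Real.log_nonneg (by linarith))
          (Real.log_le_log (by linarith) (by linarith)) 3
      have e2 : m ^ 6 * L ≤ m ^ 6 * Real.log (m + 2) ^ 3 :=
        mul_le_mul_of_nonneg_left e1 (by positivity)
      have e3 : T * (m ^ 6 * Real.log (m + 2) ^ 3) ≤ T ^ 100 * (m ^ 6 * Real.log (m + 2) ^ 3) := by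
        refine mul_le_mul_of_nonneg_right ?_ (by positivity)
        have : T ^ 1 ≤ T ^ 100 := pow_le_pow_right₀ hT1 (by norm_num)
        rwa [pow_one] at this
      have e4 : T * (m ^ 6 * L) ≤ n ^ 5 :=
        (mul_le_mul_of_nonneg_left e2 hT0.le).trans (e3.trans h)
      have e5 : 2 * K * (m ^ 6 * L) ≤ T * δ * (m ^ 6 * L) :=
        mul_le_mul_of_nonneg_right hKT (by positivity)
      have e6 : δ * (T * (m ^ 6 * L)) ≤ δ * n ^ 5 := mul_le_mul_of_nonneg_left e4 hδ.le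
      have e7 : δ * (T * (m ^ 6 * L)) = T * δ * (m ^ 6 * L) := by ring
      linarith
    · have e1 : m ^ 2 ≤ n := by
        rw [lt_div_iff₀ hm0] at hc
        nlinarith
      have e2 : m ^ 6 ≤ n ^ 3 := by
        have := pow_le_pow_left₀ (by positivity) e1 3
        have e3 : (m ^ 2) ^ 3 = m ^ 6 := by ring
        rwa [e3] at this
      have e3 : L ≤ 128000 * n := by
        refine hL1.trans ?_
        have f1 : (n / m) ^ (3 / 40 : ℝ) ≤ n ^ (3 / 40 : ℝ) :=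
          Real.rpow_le_rpow (by positivity) (div_le_self hn0 hm) (by norm_num)
        have f2 : n ^ (3 / 40 : ℝ) ≤ n ^ (1 : ℝ) :=
          Real.rpow_le_rpow_of_exponent_le hn1 (by norm_num)
        rw [Real.rpow_one] at f2
        linarith
      have e4 : m ^ 6 * L ≤ n ^ 3 * (128000 * n) := mul_le_mul e2 e3 hL0 (by positivity)
      have e5 : 256000 * K * n ^ 4 ≤ T * δ * n ^ 4 :=
        mul_le_mul_of_nonneg_right hT2 (by positivity)
      have e6 : T ≤ n := by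
        refine le_trans ?_ h2
        have : T ^ 1 ≤ T ^ 20 := pow_le_pow_right₀ hT1 (by norm_num)
        rwa [pow_one] at this
      have e7 : T * (δ * n ^ 4) ≤ n * (δ * n ^ 4) := mul_le_mul_of_nonneg_right e6 (by positivity)
      have e8 : K * (m ^ 6 * L) ≤ K * (n ^ 3 * (128000 * n)) :=
        mul_le_mul_of_nonneg_left e4 (by linarith)
      nlinarith
  have hB2 : K * (m ^ 6 / n ^ 4 * L) ≤ δ * n / 2 := by
    have e1 : K * (m ^ 6 / n ^ 4 * L) = K * (m ^ 6 * L) / n ^ 4 := by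
      field_simp
    rw [e1, div_le_iff₀ (by positivity)]
    have e2 : δ * n / 2 * n ^ 4 = δ / 2 * n ^ 5 := by ring
    rw [e2]
    exact hB
  have e1 : K * (m ^ (9 / 8 : ℝ) + m ^ 6 / n ^ 4) * L =
      K * (m ^ (9 / 8 : ℝ) * L) + K * (m ^ 6 / n ^ 4 * L) := by ring
  rw [e1]
  linarith

end Pool.Agent.Lib.MP_6b2d39_agBx
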