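import Pool.Agent.Lib.MP_6b2d39_agUp.P2Main
import Pool.Agent.Lib.MP_6b2d39_agUn.DegMono
import Pool.Agent.Lib.MP_6b2d39_agBx.NumB

/-!
THEOREM BOX: no exceptional degree if `|v| ≥ δ (d + 1)` for all `d`.
-/

set_option autoImplicit false

namespace Pool.Agent.Lib.MP_6b2d39_agBx

open Pool.Agent.Lib.MP_6b2d39_agUn Pool.Agent.Lib.MP_6b2d39_agCr Pool.Agent.Lib.MP_6b2d39_agUp

/-- twice the virtual dimension -/
private theorem ne_vd {n d : ℕ} (μ : Fin n → ℕ) :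
    2 * ((vd d μ : ℤ) : ℝ) ≤ ((d : ℝ) + 1) * (d + 2) - ((∑ i, μ i ^ 2 : ℕ) : ℝ) := by
  unfold vd
  push_cast
  rw [Nat.cast_choose_two]
  have h1 : ∀ i : Fin n, ((μ i : ℝ) ^ 2) ≤ 2 * (((μ i + 1).choose 2 : ℕ) : ℝ) := by
    intro i
    rw [Nat.cast_choose_two]
    push_cast
    have h0 : (0 : ℝ) ≤ μ i := Nat.cast_nonneg _
    nlinarith
  have h2 : ∑ i, ((μ i : ℝ) ^ 2) ≤ 2 * ∑ i, (((μ i + 1).choose 2 : ℕ) : ℝ) := by
    rw [Finset.mul_sum]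
    exact Finset.sum_le_sum fun i _ => h1 i
  push_cast
  linarith

/-- no exceptional degree if `|v| ≥ δ (d + 1)` for all `d` -/
theorem no_exc (δ : ℝ) (hδ : 0 < δ) : ∃ C : ℝ, 1 ≤ C ∧ ∀ (n M : ℕ) (μ : Fin n → ℕ), 1 ≤ M →
    (∀ i, μ i ≤ M) →
    C * ((M : ℝ) ^ 12 * Real.log (M + 2) ^ 6) ≤ ((∑ i, μ i ^ 2 : ℕ) : ℝ) ^ 5 →
    (∀ d : ℕ, δ * ((d : ℝ) + 1) ≤ |((vd d μ : ℤ) : ℝ)|) →
    ∀ d : ℕ, General (fun P => (Module.finrank ℂ (curves d μ P) : ℤ) = max (vd d μ) 0) := by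
  obtain ⟨K, hK, hU⟩ := main_up
  obtain ⟨c, hc, hw⟩ := win_le K δ hK hδ
  refine ⟨(1024 * c) ^ 2 + 40 ^ 10, by nlinarith, fun n M μ hM hμ hS hv => ?_⟩
  obtain ⟨S, hSd⟩ : ∃ S : ℝ, S = ((∑ i, μ i ^ 2 : ℕ) : ℝ) := ⟨_, rfl⟩
  rw [← hSd] at hS
  have hS0 : 0 ≤ S := by rw [hSd]; positivity
  obtain ⟨σ, hσ⟩ : ∃ σ : ℝ, σ = √S := ⟨_, rfl⟩
  have hσ0 : 0 ≤ σ := by rw [hσ]; exact Real.sqrt_nonneg S
  have hσ2 : σ ^ 2 = S := by rw [hσ]; exact Real.sq_sqrt hS0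
  have hm : (1 : ℝ) ≤ M := by exact_mod_cast hM
  have hl1 : 1 ≤ Real.log ((M : ℝ) + 2) := by
    rw [Real.le_log_iff_exp_le (by linarith)]
    have := Real.exp_one_lt_d9
    linarith
  obtain ⟨b, hb⟩ : ∃ b, b = (M : ℝ) ^ 6 * Real.log (M + 2) ^ 3 := ⟨_, rfl⟩
  have hb1 : 1 ≤ b := by
    rw [hb]
    exact one_le_mul_of_one_le_of_one_le (one_le_pow₀ hm) (one_le_pow₀ hl1)
  have hS' : ((1024 * c) ^ 2 + 40 ^ 10) * b ^ 2 ≤ (σ ^ 5) ^ 2 := by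
    have e1 : b ^ 2 = (M : ℝ) ^ 12 * Real.log (M + 2) ^ 6 := by
      rw [hb]
      ring
    have e2 : (σ ^ 5) ^ 2 = S ^ 5 := by
      rw [← hσ2]
      ring
    rw [e1, e2]
    exact hS
  have h5 : 1024 * c * b ≤ σ ^ 5 := by
    have e1 : (1024 * c * b) ^ 2 ≤ (σ ^ 5) ^ 2 := by
      refine le_trans ?_ hS'
      have e2 : (1024 * c * b) ^ 2 = (1024 * c) ^ 2 * b ^ 2 := by ring
      have e3 : (0 : ℝ) ≤ 40 ^ 10 * b ^ 2 := by positivity
      rw [e2]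
      linarith
    exact (sq_le_sq₀ (by positivity) (by positivity)).1 e1
  have h40 : 40 ≤ σ := by
    have e1 : (40 ^ 5) ^ 2 ≤ (σ ^ 5) ^ 2 := by
      refine le_trans ?_ hS'
      have e2 : 1 ≤ b ^ 2 := one_le_pow₀ hb1
      have e3 : (0 : ℝ) ≤ (1024 * c) ^ 2 := by positivity
      have e4 : ((1024 * c) ^ 2 + 40 ^ 10) * 1 ≤ ((1024 * c) ^ 2 + 40 ^ 10) * b ^ 2 :=
        mul_le_mul_of_nonneg_left e2 (by positivity)
      have e5 : ((40 : ℝ) ^ 5) ^ 2 = 40 ^ 10 := by norm_num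
      rw [e5]
      linarith
    have e2 : (40 : ℝ) ^ 5 ≤ σ ^ 5 := (sq_le_sq₀ (by positivity) (by positivity)).1 e1
    exact (pow_le_pow_iff_left₀ (by norm_num) hσ0 (by norm_num)).1 e2
  -- the large degrees
  have key : ∀ d : ℕ, σ ≤ 4 * ((d : ℝ) + 1) →
      General (fun P => (Module.finrank ℂ (curves d μ P) : ℤ) = max (vd d μ) 0) := by
    intro d hd
    refine hU n d M μ hM hμ ((hw M ((d : ℝ) + 1) hm (by positivity) ?_).trans (hv d))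
    have h6 := pow_le_pow_left₀ hσ0 hd 5
    have h7 : (4 * ((d : ℝ) + 1)) ^ 5 = 1024 * ((d : ℝ) + 1) ^ 5 := by ring
    rw [← hb]
    linarith
  intro d
  rcases le_or_gt σ (4 * ((d : ℝ) + 1)) with h1 | h1
  · exact key d h1
  · -- the degree `D`
    obtain ⟨N, hN⟩ : ∃ N : ℕ, N = ⌈σ / 4⌉₊ := ⟨_, rfl⟩
    have hN1 : σ / 4 ≤ N := by rw [hN]; exact Nat.le_ceil _
    have hN2 : (N : ℝ) < σ / 4 + 1 := by
      rw [hN]
      exact Nat.ceil_lt_add_one (by positivity)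
    have hNp : 1 ≤ N := by
      have : (1 : ℝ) ≤ N := by linarith
      exact_mod_cast this
    obtain ⟨D, hD⟩ : ∃ D, N = D + 1 := ⟨N - 1, by omega⟩
    have hDr : (N : ℝ) = (D : ℝ) + 1 := by rw [hD]; push_cast; ring
    rw [hDr] at hN1 hN2
    have hvD : 2 * ((vd D μ : ℤ) : ℝ) ≤ -(σ ^ 2 / 2) := by
      have h2 := ne_vd (d := D) μ
      rw [← hSd, ← hσ2] at h2
      have h3 : ((D : ℝ) + 1) * (D + 2) ≤ (σ / 4 + 1) * (σ / 4 + 2) :=
        mul_le_mul (by linarith) (by linarith) (by positivity) (by positivity)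
      nlinarith
    have hvD0 : ((vd D μ : ℤ) : ℝ) < 0 := by
      have : 0 < σ ^ 2 / 2 := by positivity
      linarith
    have hG := key D (by linarith)
    refine hG.mono fun P hP => ?_
    have hvD' : vd D μ < 0 := by exact_mod_cast hvD0
    rw [max_eq_right hvD'.le] at hP
    have hdD : d ≤ D := by
      have h2 : (d : ℝ) + 1 < (D : ℝ) + 1 := by linarith
      have h3 : (d : ℝ) < D := by linarith
      exact_mod_cast h3.le
    have h2 := deg_mono hdD μ P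
    have h3 : Module.finrank ℂ (curves D μ P) = 0 := by exact_mod_cast hP
    rw [h3] at h2
    have h4 : Module.finrank ℂ (curves d μ P) = 0 := Nat.le_zero.1 h2
    have hvd : ((vd d μ : ℤ) : ℝ) < 0 := by
      have h5 := ne_vd (d := d) μ
      rw [← hSd, ← hσ2] at h5
      have h6 : ((d : ℝ) + 1) * (d + 2) ≤ (σ / 4) * (σ / 4 + 1) :=
        mul_le_mul (by linarith) (by linarith) (by positivity) (by positivity)
      nlinarith
    have hvd' : vd d μ < 0 := by exact_mod_cast hvd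
    rw [h4, max_eq_right hvd'.le]
    rfl

end Pool.Agent.Lib.MP_6b2d39_agBx
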