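import Pool.Agent.Lib.MP_6b2d39_agUe.MainM
import Pool.Agent.Lib.MP_6b2d39_agBx.NoExc
import Pool.Agent.Lib.MP_6b2d39_agBx.Cnt

/-!
THEOREM BOX: one multiplicity runs through `1, …, M`.
-/

set_option autoImplicit false

namespace Pool.Agent.Lib.MP_6b2d39_agBx

open Pool.Agent.Lib.MP_6b2d39_agUn Pool.Agent.Lib.MP_6b2d39_agCr

/-- all degrees: the system with the multiplicities `k, μ 0, …, μ (n - 1)` is nonspecial -/
def AllOk {n : ℕ} (μ : Fin n → ℕ) : Prop :=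
  ∀ d : ℕ, General (fun P => (Module.finrank ℂ (curves d μ P) : ℤ) = max (vd d μ) 0)

/-- many points: no exceptional degree -/
theorem allOk_of_large {n M : ℕ} {μ : Fin n → ℕ} (hM : 1 ≤ M) (hμ : ∀ i, μ i ≤ M)
    (h : 10 ^ 6 * M ^ 3 ≤ ∑ i, μ i ^ 2) : AllOk μ := by
  have hM3 : 1 ≤ M ^ 3 := Nat.one_le_pow _ _ hM
  intro d
  refine MP_6b2d39_agUe.exact_m hM le_rfl hμ (by omega) (fun m hm1 hm2 => ?_) d
  have hm : m = M := le_antisymm hm2 hm1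
  have h1 : Finset.univ.filter (fun i => μ i ≤ m) = (Finset.univ : Finset (Fin n)) :=
    Finset.filter_true_of_mem fun i _ => hm ▸ hμ i
  rw [h1, hm]
  calc 10 ^ 6 * M ^ 2 * M * ∑ i, μ i ^ 2 = 10 ^ 6 * M ^ 3 * ∑ i, μ i ^ 2 := by ring
    _ ≤ (∑ i, μ i ^ 2) * ∑ i, μ i ^ 2 := Nat.mul_le_mul_right _ h
    _ = (∑ i, μ i ^ 2) ^ 2 := by ring

private theorem ov_num {e m s t : ℝ} (he : 0 < e) (hm : 1 ≤ m) (hs : 0 < s)
    (h1 : 16 * m ≤ e * s) (h2 : s ≤ m ^ 2) (h3 : 12 ≤ e * m)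
    (ht : t ≤ e / 8 * m + ((m ^ 2 + 4 * (e ^ 2 / 512) * s) / s + 1) *
      (4 * (e ^ 2 / 512) * s / (e / 8 * m) + 1)) (he1 : e ≤ 1) : t ≤ e * m := by
  have hm0 : 0 < m := by linarith
  have e1 : (m ^ 2 + 4 * (e ^ 2 / 512) * s) / s = m ^ 2 / s + e ^ 2 / 128 := by
    field_simp
    ring
  have e2 : 4 * (e ^ 2 / 512) * s / (e / 8 * m) = e / 16 * (s / m) := by
    field_simp
    ring
  rw [e1, e2] at ht
  have e3 : m ^ 2 / s ≤ e * m / 16 := by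
    rw [div_le_iff₀ hs]
    nlinarith
  have e4 : s / m ≤ m := by
    rw [div_le_iff₀ hm0]
    nlinarith
  have e5 : m ^ 2 / s * (e / 16 * (s / m)) = e / 16 * m := by
    field_simp
  have e6 : 0 ≤ s / m := by positivity
  have e7 : e ^ 2 / 128 ≤ 1 / 128 := by nlinarith
  have e8 : 0 ≤ e ^ 2 / 128 := by positivity
  have e9 : (m ^ 2 / s + e ^ 2 / 128 + 1) * (e / 16 * (s / m) + 1) =
      m ^ 2 / s * (e / 16 * (s / m)) + m ^ 2 / s + (e ^ 2 / 128 + 1) * (e / 16 * (s / m)) +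
        (e ^ 2 / 128 + 1) := by ring
  rw [e9, e5] at ht
  have e10 : e / 16 * (s / m) ≤ e / 16 * m := mul_le_mul_of_nonneg_left e4 (by positivity)
  have e11 : 0 ≤ e / 16 * (s / m) := by positivity
  have e12 : (e ^ 2 / 128 + 1) * (e / 16 * (s / m)) ≤ 2 * (e / 16 * m) :=
    mul_le_mul (by linarith) e10 e11 (by norm_num)
  have e13 : e / 16 * m = e * m / 16 := by ring
  have e14 : e / 8 * m = e * m / 8 := by ring
  rw [e13] at ht e12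
  rw [e14] at ht
  linarith

/-- THEOREM BOX, one multiplicity varies: for all but at most `ε M` of the values `k` in `1, …, M`
the system with the multiplicities `k, μ 0, …, μ (n - 1)` is nonspecial in all degrees -/
theorem one_var (ε : ℝ) (hε : 0 < ε) : ∃ C : ℝ, 1 ≤ C ∧ ∀ (n M : ℕ) (μ : Fin n → ℕ), 1 ≤ M →
    (∀ i, μ i ≤ M) →
    C * ((M : ℝ) ^ 12 * Real.log (M + 2) ^ 6) ≤ ((∑ i, μ i ^ 2 : ℕ) : ℝ) ^ 5 →
    ({k : ℕ | 1 ≤ k ∧ k ≤ M ∧ ¬ AllOk (Fin.cons k μ : Fin (n + 1) → ℕ)}.ncard : ℝ) ≤ ε * M := by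
  classical
  obtain ⟨e, he⟩ : ∃ e, e = min ε 1 := ⟨_, rfl⟩
  have he0 : 0 < e := by rw [he]; exact lt_min hε one_pos
  have he1 : e ≤ 1 := by rw [he]; exact min_le_right _ _
  have heε : e ≤ ε := by rw [he]; exact min_le_left _ _
  obtain ⟨δ, hδ⟩ : ∃ δ, δ = e ^ 2 / 512 := ⟨_, rfl⟩
  have hδ0 : 0 < δ := by rw [hδ]; positivity
  have hδ8 : δ ≤ 1 / 8 := by rw [hδ]; nlinarith
  obtain ⟨C0, hC0, hne⟩ := no_exc δ hδ0
  obtain ⟨R, hR⟩ : ∃ R, R = 16 / e := ⟨_, rfl⟩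
  have hR0 : 0 < R := by rw [hR]; positivity
  have heR : e * R = 16 := by rw [hR]; field_simp
  have hR16 : 16 ≤ R := by nlinarith
  refine ⟨C0 + (2 * R ^ 2) ^ 5 + 10 ^ 30 * (10 ^ 6 * R) ^ 3, by
    have : 0 < (2 * R ^ 2) ^ 5 + 10 ^ 30 * (10 ^ 6 * R) ^ 3 := by positivity
    linarith, fun n M μ hM hμ hS => ?_⟩
  obtain ⟨S, hSd⟩ : ∃ S : ℝ, S = ((∑ i, μ i ^ 2 : ℕ) : ℝ) := ⟨_, rfl⟩
  rw [← hSd] at hS
  have hS0 : 0 ≤ S := by rw [hSd]; positivity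
  have hm : (1 : ℝ) ≤ M := by exact_mod_cast hM
  have hm0 : (0 : ℝ) < M := by linarith
  have hl1 : 1 ≤ Real.log ((M : ℝ) + 2) := by
    rw [Real.le_log_iff_exp_le (by linarith)]
    have := Real.exp_one_lt_d9
    linarith
  obtain ⟨b, hb⟩ : ∃ b, b = (M : ℝ) ^ 12 * Real.log (M + 2) ^ 6 := ⟨_, rfl⟩
  rw [← hb] at hS
  have hb12 : (M : ℝ) ^ 12 ≤ b := by
    rw [hb]
    have : (M : ℝ) ^ 12 * 1 ≤ (M : ℝ) ^ 12 * Real.log (M + 2) ^ 6 :=
      mul_le_mul_of_nonneg_left (one_le_pow₀ hl1) (by positivity)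
    linarith
  have hb0 : 0 < b := lt_of_lt_of_le (by positivity) hb12
  have hSC0 : C0 * b ≤ S ^ 5 := by
    refine le_trans ?_ hS
    refine mul_le_mul_of_nonneg_right ?_ hb0.le
    have : 0 < (2 * R ^ 2) ^ 5 + 10 ^ 30 * (10 ^ 6 * R) ^ 3 := by positivity
    linarith
  -- the system with one more point
  have hcM : ∀ k : ℕ, k ≤ M → ∀ i, (Fin.cons k μ : Fin (n + 1) → ℕ) i ≤ M := by
    intro k hk i
    refine Fin.cases ?_ (fun i => ?_) i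
    · rw [Fin.cons_zero]
      exact hk
    · rw [Fin.cons_succ]
      exact hμ i
  have hcS : ∀ k : ℕ, ∑ i, (Fin.cons k μ : Fin (n + 1) → ℕ) i ^ 2 = k ^ 2 + ∑ i, μ i ^ 2 := by
    intro k
    rw [Fin.sum_univ_succ, Fin.cons_zero]
    simp only [Fin.cons_succ]
  by_cases hlarge : 10 ^ 6 * M ^ 3 ≤ ∑ i, μ i ^ 2
  · have h0 : {k : ℕ | 1 ≤ k ∧ k ≤ M ∧ ¬ AllOk (Fin.cons k μ : Fin (n + 1) → ℕ)} = ∅ := by
      rw [Set.eq_empty_iff_forall_notMem]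
      rintro k ⟨-, hk, hk2⟩
      refine hk2 (allOk_of_large hM (hcM k hk) ?_)
      rw [hcS]
      omega
    rw [h0, Set.ncard_empty]
    push_cast
    positivity
  rw [not_le] at hlarge
  have hSlt : S < 10 ^ 6 * (M : ℝ) ^ 3 := by
    rw [hSd]
    exact_mod_cast hlarge
  -- `M` is large
  have hMR : 10 ^ 6 * R < M := by
    have e1 : 10 ^ 30 * (10 ^ 6 * R) ^ 3 * b ≤ S ^ 5 := by
      refine le_trans ?_ hS
      refine mul_le_mul_of_nonneg_right ?_ hb0.le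
      have : 0 < (2 * R ^ 2) ^ 5 := by positivity
      linarith
    have e2 : S ^ 5 < (10 ^ 6 * (M : ℝ) ^ 3) ^ 5 := pow_lt_pow_left₀ hSlt hS0 (by norm_num)
    have e3 : 10 ^ 30 * (10 ^ 6 * R) ^ 3 * (M : ℝ) ^ 12 ≤ 10 ^ 30 * (10 ^ 6 * R) ^ 3 * b :=
      mul_le_mul_of_nonneg_left hb12 (by positivity)
    have e4 : (10 ^ 6 * (M : ℝ) ^ 3) ^ 5 = 10 ^ 30 * (M : ℝ) ^ 3 * (M : ℝ) ^ 12 := by ring
    rw [e4] at e2
    have e5 : 10 ^ 30 * (10 ^ 6 * R) ^ 3 * (M : ℝ) ^ 12 < 10 ^ 30 * (M : ℝ) ^ 3 * (M : ℝ) ^ 12 := by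
      linarith
    have e6 := lt_of_mul_lt_mul_right e5 (by positivity)
    have e7 : (10 ^ 6 * R) ^ 3 < (M : ℝ) ^ 3 := by
      have : (10 : ℝ) ^ 30 * (10 ^ 6 * R) ^ 3 < 10 ^ 30 * (M : ℝ) ^ 3 := e6
      exact lt_of_mul_lt_mul_left this (by positivity)
    exact lt_of_pow_lt_pow_left₀ 3 hm0.le e7
  have hSR : 2 * R ^ 2 * (M : ℝ) ^ 2 ≤ S := by
    have e1 : (2 * R ^ 2) ^ 5 * b ≤ S ^ 5 := by
      refine le_trans ?_ hS
      refine mul_le_mul_of_nonneg_right ?_ hb0.le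
      have : 0 < 10 ^ 30 * (10 ^ 6 * R) ^ 3 := by positivity
      linarith
    have e2 : (2 * R ^ 2 * (M : ℝ) ^ 2) ^ 5 ≤ S ^ 5 := by
      refine le_trans ?_ e1
      have e3 : (2 * R ^ 2 * (M : ℝ) ^ 2) ^ 5 = (2 * R ^ 2) ^ 5 * (M : ℝ) ^ 10 := by ring
      have e4 : (M : ℝ) ^ 10 ≤ (M : ℝ) ^ 12 := pow_le_pow_right₀ hm (by norm_num)
      rw [e3]
      exact mul_le_mul_of_nonneg_left (e4.trans hb12) (by positivity)
    exact (pow_le_pow_iff_left₀ (by positivity) hS0 (by norm_num)).1 e2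
  -- the number of conditions
  obtain ⟨s0, hs0⟩ : ∃ s0 : ℝ, s0 = ((∑ i, (μ i + 1).choose 2 : ℕ) : ℝ) := ⟨_, rfl⟩
  have hch : ∀ k : ℕ, (((k + 1).choose 2 : ℕ) : ℝ) = (k : ℝ) * (k + 1) / 2 := by
    intro k
    rw [Nat.cast_choose_two]
    push_cast
    ring
  have hs1 : S ≤ 2 * s0 := by
    rw [hSd, hs0]
    push_cast
    rw [Finset.mul_sum]
    refine Finset.sum_le_sum fun i _ => ?_
    rw [hch]
    have : (0 : ℝ) ≤ μ i := Nat.cast_nonneg _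
    nlinarith
  have hs2 : s0 ≤ S := by
    rw [hSd, hs0]
    have e1 : ∀ i ∈ (Finset.univ : Finset (Fin n)), (μ i + 1).choose 2 ≤ μ i ^ 2 := by
      intro i _
      have h2 : 2 * (μ i + 1).choose 2 = (μ i + 1) * μ i := by
        rw [Nat.choose_two_right, Nat.add_sub_cancel]
        have h3 : 2 ∣ (μ i + 1) * μ i := by
          rw [mul_comm]
          exact (Nat.even_mul_succ_self (μ i)).two_dvd
        exact Nat.mul_div_cancel' h3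
      rcases Nat.eq_zero_or_pos (μ i) with h | h
      · rw [h]
        decide
      · nlinarith
    exact_mod_cast Finset.sum_le_sum e1
  have hs00 : 0 ≤ s0 := by rw [hs0]; positivity
  obtain ⟨s, hs⟩ : ∃ s : ℝ, s = √s0 := ⟨_, rfl⟩
  have hsn : 0 ≤ s := by rw [hs]; exact Real.sqrt_nonneg s0
  have hsq : s ^ 2 = s0 := by rw [hs]; exact Real.sq_sqrt hs00
  have hRM : R * M ≤ s := by
    have e1 : (R * M) ^ 2 ≤ s ^ 2 := by
      rw [hsq]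
      have : (R * (M : ℝ)) ^ 2 = R ^ 2 * (M : ℝ) ^ 2 := by ring
      rw [this]
      linarith
    exact (sq_le_sq₀ (by positivity) hsn).1 e1
  have hMs : (M : ℝ) ≤ s := by nlinarith
  have hsM : s ≤ (M : ℝ) ^ 2 := by
    have e1 : s ^ 2 ≤ ((M : ℝ) ^ 2) ^ 2 := by
      rw [hsq]
      have e2 : (10 : ℝ) ^ 6 ≤ M := by nlinarith
      have e3 : (10 : ℝ) ^ 6 * (M : ℝ) ^ 3 ≤ M * (M : ℝ) ^ 3 :=
        mul_le_mul_of_nonneg_right e2 (by positivity)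
      have e4 : ((M : ℝ) ^ 2) ^ 2 = M * (M : ℝ) ^ 3 := by ring
      linarith
    exact (sq_le_sq₀ hsn (by positivity)).1 e1
  -- the bad values
  obtain ⟨A, hA⟩ : ∃ A : Finset ℕ, A = (Finset.Icc 1 M).filter
      (fun k => ¬ AllOk (Fin.cons k μ : Fin (n + 1) → ℕ)) := ⟨_, rfl⟩
  have hAset : {k : ℕ | 1 ≤ k ∧ k ≤ M ∧ ¬ AllOk (Fin.cons k μ : Fin (n + 1) → ℕ)} = (A : Set ℕ) := by
    ext k
    rw [hA, Finset.mem_coe, Finset.mem_filter, Finset.mem_Icc, Set.mem_setOf_eq, and_assoc]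
  rw [hAset, Set.ncard_coe_finset]
  have hbad : ∀ k ∈ A, 1 ≤ k ∧ k ≤ M ∧ ∃ d : ℕ,
      |(((d + 2).choose 2 : ℕ) : ℝ) - s ^ 2 - (((k + 1).choose 2 : ℕ) : ℝ)| < δ * ((d : ℝ) + 1) := by
    intro k hk
    rw [hA, Finset.mem_filter, Finset.mem_Icc] at hk
    obtain ⟨⟨hk1, hk2⟩, hk3⟩ := hk
    refine ⟨hk1, hk2, ?_⟩
    by_contra hcon
    push Not at hcon
    refine hk3 (hne (n + 1) M _ hM (hcM k hk2) ?_ fun d => ?_)
    · rw [← hb, hcS]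
      refine hSC0.trans (pow_le_pow_left₀ hS0 ?_ 5)
      rw [hSd]
      have : ∑ i, μ i ^ 2 ≤ k ^ 2 + ∑ i, μ i ^ 2 := Nat.le_add_left _ _
      exact_mod_cast this
    · refine (hcon d).trans (le_of_eq ?_)
      congr 1
      unfold vd
      rw [Fin.sum_univ_succ, Fin.cons_zero]
      simp only [Fin.cons_succ]
      rw [hsq, hs0]
      push_cast
      ring
  have hcount := card_bad (κ := e / 8) hM hδ0 hδ8 (by positivity)
    (pow_le_pow_left₀ hm0.le hMs 2) (by nlinarith) hbad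
  rw [hδ] at hcount
  refine (ov_num he0 hm (by linarith) ?_ hsM ?_ hcount he1).trans
    (mul_le_mul_of_nonneg_right heε hm0.le)
  · calc 16 * (M : ℝ) = e * (R * M) := by rw [← heR]; ring
      _ ≤ e * s := mul_le_mul_of_nonneg_left hRM he0.le
  · have e1 : e * (10 ^ 6 * R) ≤ e * M := mul_le_mul_of_nonneg_left hMR.le he0.le
    have e2 : e * (10 ^ 6 * R) = 10 ^ 6 * (e * R) := by ring
    rw [e2, heR] at e1
    linarith

end Pool.Agent.Lib.MP_6b2d39_agBx
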